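import Mathlib

/-!
PROJECT SH (MP_274814_nt), block S, file S0: functions which are small on a grid are small.
-/

set_option autoImplicit false

namespace Pool.Agent.Helper11.SH

open Metric Finset

/-- orthogonality of the powers of a primitive root of unity -/
private theorem S0_orth {ω : ℂ} {M : ℕ} (hM : 0 < M) (hω : IsPrimitiveRoot ω M) (j l : ℕ)
    (hl : l < M) :
    ∑ k ∈ range M, (ω ^ k) ^ j * (ω⁻¹) ^ (k * l) = if l = j % M then (M : ℂ) else 0 := by
  have hω0 : ω ≠ 0 := hω.ne_zero hM.ne'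
  have h1 : ∀ k, (ω ^ k) ^ j * (ω⁻¹) ^ (k * l) = (ω ^ j * (ω⁻¹) ^ l) ^ k := by
    intro k
    rw [mul_pow, ← pow_mul, ← pow_mul, ← pow_mul, mul_comm k j, mul_comm k l]
  simp only [h1]
  have h2 : (ω ^ j * (ω⁻¹) ^ l) ^ M = 1 := by
    rw [mul_pow, ← pow_mul, ← pow_mul, mul_comm j, mul_comm l, pow_mul, pow_mul, inv_pow,
      hω.pow_eq_one]
    simp
  split_ifs with h
  · have h3 : ω ^ j * (ω⁻¹) ^ l = 1 := by
      have h4 : ω ^ j = ω ^ l := by
        conv_lhs => rw [← Nat.mod_add_div j M, pow_add, pow_mul, hω.pow_eq_one, one_pow, mul_one]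
        rw [h]
      rw [h4, inv_pow, mul_inv_cancel₀ (pow_ne_zero l hω0)]
    rw [h3]
    simp
  · have h3 : ω ^ j * (ω⁻¹) ^ l ≠ 1 := by
      intro h4
      apply h
      have h5 : ω ^ l = ω ^ (j % M) := by
        have h6 : ω ^ j = ω ^ l := by
          rw [inv_pow] at h4
          field_simp at h4
          exact h4
        rw [← h6]
        conv_lhs => rw [← Nat.mod_add_div j M, pow_add, pow_mul, hω.pow_eq_one, one_pow, mul_one]
      exact hω.pow_inj hl (Nat.mod_lt j hM) h5
    rw [geom_sum_eq h3, h2, sub_self, zero_div]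

/-- one variable: interpolation at the `M`-th roots of unity -/
theorem S0_one {g : ℂ → ℂ} {S B : ℝ} {M : ℕ} (hM : 0 < M)
    (hg : DifferentiableOn ℂ g (ball 0 2)) (hgc : ContinuousOn g (closedBall 0 2))
    (hS : ∀ z ∈ closedBall (0 : ℂ) 2, ‖g z‖ ≤ S)
    {ω : ℂ} (hω : IsPrimitiveRoot ω M) (hB : ∀ k < M, ‖g (ω ^ k)‖ ≤ B) {z : ℂ} (hz : ‖z‖ ≤ 1) :
    ‖g z‖ ≤ M * B + 4 * (1 / 2) ^ M * S := by
  have hω0 : ω ≠ 0 := hω.ne_zero hM.ne'
  have hωn : ‖ω‖ = 1 := hω.norm'_eq_one hM.ne'
  set a : ℕ → ℂ := fun j => (j.factorial : ℂ)⁻¹ * iteratedDeriv j g 0 with ha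
  have hdc : DiffContOnCl ℂ g (ball 0 2) := by
    refine ⟨hg, ?_⟩
    rwa [closure_ball _ (by norm_num)]
  have hab : ∀ j, ‖a j‖ ≤ S * (1 / 2) ^ j := by
    intro j
    have h1 := Complex.norm_iteratedDeriv_le_of_forall_mem_sphere_norm_le (n := j)
      (by norm_num : (0 : ℝ) < 2) hdc (fun w hw => hS w (sphere_subset_closedBall hw))
    rw [ha]
    simp only
    rw [norm_mul, norm_inv, Complex.norm_natCast]
    have h2 : (0 : ℝ) < j.factorial := by exact_mod_cast j.factorial_pos
    calc (j.factorial : ℝ)⁻¹ * ‖iteratedDeriv j g 0‖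
        ≤ (j.factorial : ℝ)⁻¹ * (j.factorial * S / 2 ^ j) :=
          mul_le_mul_of_nonneg_left h1 (by positivity)
      _ = S * (1 / 2) ^ j := by
          rw [one_div, inv_pow]
          field_simp
  have hs : ∀ w : ℂ, ‖w‖ < 2 → HasSum (fun j => a j * w ^ j) (g w) := by
    intro w hw
    have h1 := Complex.hasSum_taylorSeries_on_ball hg
      (show w ∈ ball (0 : ℂ) 2 by rwa [mem_ball_zero_iff])
    refine h1.congr_fun ?_
    intro j
    rw [ha, smul_eq_mul, smul_eq_mul, sub_zero]
    ring
  set L : ℂ := ∑ k ∈ range M, ∑ l ∈ range M,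
    (M : ℂ)⁻¹ * z ^ l * (ω⁻¹) ^ (k * l) * g (ω ^ k) with hL
  have hMr : (0 : ℝ) < M := by exact_mod_cast hM
  have hMc : (M : ℂ) ≠ 0 := by exact_mod_cast hM.ne'
  have hL1 : ‖L‖ ≤ M * B := by
    rw [hL]
    calc ‖∑ k ∈ range M, ∑ l ∈ range M, (M : ℂ)⁻¹ * z ^ l * (ω⁻¹) ^ (k * l) * g (ω ^ k)‖
        ≤ ∑ k ∈ range M, ∑ l ∈ range M, (M : ℝ)⁻¹ * B := by
          refine (norm_sum_le _ _).trans (Finset.sum_le_sum fun k hk => ?_)
          refine (norm_sum_le _ _).trans (Finset.sum_le_sum fun l _ => ?_)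
          rw [norm_mul, norm_mul, norm_mul, norm_inv, Complex.norm_natCast, norm_pow, norm_pow,
            norm_inv, hωn, inv_one, one_pow, mul_one]
          have h1 : ‖z‖ ^ l ≤ 1 := pow_le_one₀ (norm_nonneg z) hz
          have h2 := hB k (Finset.mem_range.1 hk)
          calc (M : ℝ)⁻¹ * ‖z‖ ^ l * ‖g (ω ^ k)‖ ≤ (M : ℝ)⁻¹ * 1 * B := by
                refine mul_le_mul ?_ h2 (norm_nonneg _) (by positivity)
                exact mul_le_mul_of_nonneg_left h1 (by positivity)
            _ = (M : ℝ)⁻¹ * B := by rw [mul_one]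
      _ = M * B := by
          simp only [Finset.sum_const, Finset.card_range, nsmul_eq_mul]
          field_simp
  have hL2 : HasSum (fun j => a j * z ^ (j % M)) L := by
    have h1 : HasSum (fun j => ∑ k ∈ range M, ∑ l ∈ range M,
        (M : ℂ)⁻¹ * z ^ l * (ω⁻¹) ^ (k * l) * (a j * (ω ^ k) ^ j)) L := by
      rw [hL]
      refine hasSum_sum fun k _ => hasSum_sum fun l _ => ?_
      refine (hs (ω ^ k) ?_).mul_left _
      rw [norm_pow, hωn, one_pow]
      norm_num
    refine h1.congr_fun ?_
    intro j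
    rw [Finset.sum_comm]
    have h2 : ∀ l ∈ range M, ∑ k ∈ range M,
        (M : ℂ)⁻¹ * z ^ l * (ω⁻¹) ^ (k * l) * (a j * (ω ^ k) ^ j) =
        if l = j % M then a j * z ^ l else 0 := by
      intro l hl
      have h3 := S0_orth hM hω j l (Finset.mem_range.1 hl)
      have h4 : ∑ k ∈ range M, (M : ℂ)⁻¹ * z ^ l * (ω⁻¹) ^ (k * l) * (a j * (ω ^ k) ^ j) =
          (M : ℂ)⁻¹ * z ^ l * a j * ∑ k ∈ range M, (ω ^ k) ^ j * (ω⁻¹) ^ (k * l) := by
        rw [Finset.mul_sum]
        exact Finset.sum_congr rfl fun k _ => by ring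
      rw [h4, h3]
      split_ifs
      · field_simp
      · rw [mul_zero]
    rw [Finset.sum_congr rfl h2, Finset.sum_ite_eq' (range M) (j % M),
      if_pos (Finset.mem_range.2 (Nat.mod_lt j hM))]
  have hz2 : ‖z‖ < 2 := by linarith
  have h1 := (hs z hz2).sub hL2
  have hS0 : 0 ≤ S := (norm_nonneg _).trans (hS 0 (by simp))
  have h2 : ‖g z - L‖ ≤ 4 * (1 / 2) ^ M * S := by
    have h3 : HasSum (fun j => a (j + M) * z ^ (j + M) - a (j + M) * z ^ ((j + M) % M)) (g z - L) := by
      have h4 := (hasSum_nat_add_iff' M).2 h1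
      have h5 : ∑ i ∈ range M, (a i * z ^ i - a i * z ^ (i % M)) = 0 := by
        refine Finset.sum_eq_zero fun i hi => ?_
        rw [Nat.mod_eq_of_lt (Finset.mem_range.1 hi), sub_self]
      rw [h5, sub_zero] at h4
      exact h4
    have h6 : HasSum (fun j : ℕ => 2 * S * (1 / 2) ^ M * (1 / 2 : ℝ) ^ j)
        (2 * S * (1 / 2) ^ M * 2) :=
      hasSum_geometric_two.mul_left _
    have h7 : ‖g z - L‖ ≤ 2 * S * (1 / 2) ^ M * 2 := by
      refine h3.norm_le_of_bounded h6 fun j => ?_
      have h8 := hab (j + M)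
      have h9 : ‖a (j + M) * z ^ (j + M)‖ ≤ S * (1 / 2) ^ (j + M) := by
        rw [norm_mul, norm_pow]
        have := pow_le_one₀ (n := j + M) (norm_nonneg z) hz
        calc ‖a (j + M)‖ * ‖z‖ ^ (j + M) ≤ ‖a (j + M)‖ * 1 :=
              mul_le_mul_of_nonneg_left this (norm_nonneg _)
          _ ≤ _ := by rw [mul_one]; exact h8
      have h10 : ‖a (j + M) * z ^ ((j + M) % M)‖ ≤ S * (1 / 2) ^ (j + M) := by
        rw [norm_mul, norm_pow]
        have := pow_le_one₀ (n := (j + M) % M) (norm_nonneg z) hz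
        calc ‖a (j + M)‖ * ‖z‖ ^ ((j + M) % M) ≤ ‖a (j + M)‖ * 1 :=
              mul_le_mul_of_nonneg_left this (norm_nonneg _)
          _ ≤ _ := by rw [mul_one]; exact h8
      refine (norm_sub_le _ _).trans ((add_le_add h9 h10).trans (le_of_eq ?_))
      rw [pow_add]
      ring
    calc ‖g z - L‖ ≤ 2 * S * (1 / 2) ^ M * 2 := h7
      _ = 4 * (1 / 2) ^ M * S := by ring
  calc ‖g z‖ = ‖L + (g z - L)‖ := by rw [add_sub_cancel]
    _ ≤ ‖L‖ + ‖g z - L‖ := norm_add_le _ _
    _ ≤ M * B + 4 * (1 / 2) ^ M * S := add_le_add hL1 h2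

/-- one variable, general disc -/
theorem S0_disc {g : ℂ → ℂ} {S B r : ℝ} {c : ℂ} {M : ℕ} (hM : 0 < M) (hr : 0 < r)
    (hg : DifferentiableOn ℂ g (closedBall c (2 * r)))
    (hS : ∀ z ∈ closedBall c (2 * r), ‖g z‖ ≤ S)
    {ω : ℂ} (hω : IsPrimitiveRoot ω M) (hB : ∀ k < M, ‖g (c + r * ω ^ k)‖ ≤ B) {z : ℂ}
    (hz : z ∈ closedBall c r) :
    ‖g z‖ ≤ M * B + 4 * (1 / 2) ^ M * S := by
  have hrc : (r : ℂ) ≠ 0 := by exact_mod_cast hr.ne'
  have hmap : ∀ w ∈ closedBall (0 : ℂ) 2, c + r * w ∈ closedBall c (2 * r) := by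
    intro w hw
    rw [mem_closedBall_zero_iff] at hw
    rw [mem_closedBall_iff_norm, add_sub_cancel_left, norm_mul, Complex.norm_real,
      Real.norm_of_nonneg hr.le, mul_comm]
    exact mul_le_mul_of_nonneg_right hw hr.le
  have hd : DifferentiableOn ℂ (fun w : ℂ => g (c + r * w)) (closedBall 0 2) := by
    refine hg.comp ?_ hmap
    exact ((differentiable_const c).add
      ((differentiable_const (r : ℂ)).mul differentiable_id)).differentiableOn
  have h1 := S0_one (g := fun w => g (c + r * w)) hM (hd.mono ball_subset_closedBall)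
    hd.continuousOn (fun w hw => hS _ (hmap w hw)) hω hB (z := (z - c) / r) (by
      rw [norm_div, Complex.norm_real, Real.norm_of_nonneg hr.le, div_le_one hr]
      rwa [mem_closedBall_iff_norm] at hz)
  have h2 : c + r * ((z - c) / r) = z := by
    field_simp
    ring
  simp only [h2] at h1
  exact h1

/-- several variables: a function which vanishes at the points of a grid is small -/
theorem grid_bound {ι : Type} [Fintype ι] {f : (ι → ℂ) → ℂ} {x : ι → ℂ} {r S : ℝ} (hr : 0 < r)
    {U : Set (ι → ℂ)} (hf : DifferentiableOn ℂ f U)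
    (hxU : closedBall x (2 * r) ⊆ U) (hS : ∀ y ∈ closedBall x (2 * r), ‖f y‖ ≤ S) {M : ℕ}
    (hM : 0 < M) {ω : ℂ} (hω : IsPrimitiveRoot ω M)
    (h0 : ∀ α : ι → Fin M, f (fun i => x i + r * ω ^ (α i : ℕ)) = 0) :
    ∀ y ∈ closedBall x r, ‖f y‖ ≤
      Fintype.card ι * M ^ Fintype.card ι * (4 * (1 / 2) ^ M * S) := by
  classical
  have hωn : ‖ω‖ = 1 := hω.norm'_eq_one hM.ne'
  have hMr : (1 : ℝ) ≤ M := by exact_mod_cast hM
  have hx0 : x ∈ closedBall x (2 * r) := mem_closedBall_self (by linarith)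
  have hS0 : 0 ≤ S := (norm_nonneg _).trans (hS x hx0)
  set T : ℝ := 4 * (1 / 2) ^ M * S with hT
  have hT0 : 0 ≤ T := by positivity
  have key : ∀ J : Finset ι, ∀ y ∈ closedBall x r,
      (∀ i ∉ J, ∃ k : Fin M, y i = x i + r * ω ^ (k : ℕ)) →
      ‖f y‖ ≤ J.card * M ^ J.card * T := by
    intro J
    induction J using Finset.induction_on with
    | empty =>
      intro y _ hy
      choose α hα using fun i => hy i (Finset.notMem_empty i)
      have h1 : y = fun i => x i + r * ω ^ (α i : ℕ) := funext hα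
      rw [h1, h0]
      simp
    | insert j J hj ih =>
      intro y hy hyn
      have hcoord : ∀ w ∈ closedBall (x j) (2 * r), Function.update y j w ∈ closedBall x (2 * r) := by
        intro w hw
        rw [mem_closedBall, dist_pi_le_iff (by linarith)]
        intro i
        by_cases hi : i = j
        · subst hi
          rw [Function.update_self]
          exact hw
        · rw [Function.update_of_ne hi]
          have := (dist_pi_le_iff (hr.le)).1 (mem_closedBall.1 hy) i
          linarith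
      have hcoord' : ∀ w ∈ closedBall (x j) r, Function.update y j w ∈ closedBall x r := by
        intro w hw
        rw [mem_closedBall, dist_pi_le_iff hr.le]
        intro i
        by_cases hi : i = j
        · subst hi
          rw [Function.update_self]
          exact hw
        · rw [Function.update_of_ne hi]
          exact (dist_pi_le_iff (hr.le)).1 (mem_closedBall.1 hy) i
      have hd : DifferentiableOn ℂ (fun w => f (Function.update y j w)) (closedBall (x j) (2 * r)) := by
        refine hf.comp ?_ fun w hw => hxU (hcoord w hw)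
        exact (differentiable_pi.2 fun i => by
          by_cases hi : i = j
          · subst hi
            simp only [Function.update_self]
            exact differentiable_id
          · simp only [Function.update_of_ne hi]
            exact differentiable_const _).differentiableOn
      have h1 := S0_disc (g := fun w => f (Function.update y j w)) (S := S)
        (B := J.card * M ^ J.card * T) hM hr hd (fun w hw => hS _ (hcoord w hw)) hω (by
          intro k hk
          refine ih _ (hcoord' _ ?_) ?_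
          · rw [mem_closedBall_iff_norm, add_sub_cancel_left, norm_mul, norm_pow, hωn, one_pow,
              mul_one, Complex.norm_real, Real.norm_of_nonneg hr.le]
          · intro i hi
            by_cases hij : i = j
            · subst hij
              exact ⟨⟨k, hk⟩, by rw [Function.update_self]⟩
            · rw [Function.update_of_ne hij]
              exact hyn i (by simp [hij, hi])) (z := y j)
        ((dist_pi_le_iff (hr.le)).1 (mem_closedBall.1 hy) j)
      rw [Function.update_eq_self] at h1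
      refine h1.trans ?_
      rw [Finset.card_insert_of_notMem hj, ← hT]
      have h2 : (1 : ℝ) ≤ (M : ℝ) ^ (J.card + 1) := one_le_pow₀ hMr
      push_cast
      calc (M : ℝ) * (J.card * M ^ J.card * T) + T
          = J.card * M ^ (J.card + 1) * T + 1 * T := by ring
        _ ≤ J.card * M ^ (J.card + 1) * T + M ^ (J.card + 1) * T := by
            gcongr
        _ = (J.card + 1) * M ^ (J.card + 1) * T := by ring
  intro y hy
  have h1 := key Finset.univ y hy (fun i hi => absurd (Finset.mem_univ i) hi)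
  rwa [Finset.card_univ] at h1

end Pool.Agent.Helper11.SH
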