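import Pool.Agent.Helper11.SH.S0

/-!
PROJECT SH (MP_274814_nt), block S, file S1: algebraic dependence of functions with a common factor of
automorphy on a domain with a compact fundamental set.
-/

set_option autoImplicit false

namespace Pool.Agent.Helper11.SH

open Metric Finset Filter Topology

variable {ι κ : Type} [Fintype ι] [Fintype κ]

/-- monomial of degree `card κ * L` in `f0` and the `f k` -/
noncomputable def mo (L : ℕ) (f0 : (ι → ℂ) → ℂ) (f : κ → (ι → ℂ) → ℂ) (e : κ → Fin (L + 1))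
    (x : ι → ℂ) : ℂ :=
  f0 x ^ (Fintype.card κ * L - ∑ k, (e k : ℕ)) * ∏ k, f k x ^ (e k : ℕ)

private theorem S1_le (L : ℕ) (e : κ → Fin (L + 1)) : ∑ k, (e k : ℕ) ≤ Fintype.card κ * L := by
  calc ∑ k, (e k : ℕ) ≤ ∑ _k : κ, L := Finset.sum_le_sum fun k _ => Nat.lt_succ_iff.1 (e k).2
    _ = Fintype.card κ * L := by rw [Finset.sum_const, Finset.card_univ, smul_eq_mul]

theorem mo_scale (L : ℕ) (f0 : (ι → ℂ) → ℂ) (f : κ → (ι → ℂ) → ℂ) (e : κ → Fin (L + 1))
    (x y : ι → ℂ) (j : ℂ) (h0 : f0 x = j * f0 y) (h : ∀ k, f k x = j * f k y) :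
    mo L f0 f e x = j ^ (Fintype.card κ * L) * mo L f0 f e y := by
  unfold mo
  rw [h0]
  simp only [h, mul_pow, Finset.prod_mul_distrib, Finset.prod_pow_eq_pow_sum]
  have h1 : j ^ (Fintype.card κ * L) =
      j ^ (Fintype.card κ * L - ∑ k, (e k : ℕ)) * j ^ (∑ k, (e k : ℕ)) := by
    rw [← pow_add, Nat.sub_add_cancel (S1_le L e)]
  rw [h1]
  ring

private theorem mo_diff {X : Set (ι → ℂ)} {f0 : (ι → ℂ) → ℂ} {f : κ → (ι → ℂ) → ℂ}
    (hf0 : DifferentiableOn ℂ f0 X) (hf : ∀ k, DifferentiableOn ℂ (f k) X) (L : ℕ)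
    (e : κ → Fin (L + 1)) : DifferentiableOn ℂ (mo L f0 f e) X := by
  unfold mo
  have h1 : ∀ s : Finset κ, DifferentiableOn ℂ (fun x => ∏ k ∈ s, f k x ^ (e k : ℕ)) X := by
    classical
    intro s
    induction s using Finset.induction_on with
    | empty =>
      simp only [Finset.prod_empty]
      exact differentiableOn_const _
    | insert k s hk ih =>
      simp only [Finset.prod_insert hk]
      exact ((hf k).fun_pow _).fun_mul ih
  exact (hf0.fun_pow _).fun_mul (h1 Finset.univ)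

/-- linear algebra: less equations than unknowns -/
private theorem S1_lin {I E : Type} [Fintype I] [Fintype E] (h : Fintype.card I < Fintype.card E)
    (a : I → E → ℂ) : ∃ c : E → ℂ, c ≠ 0 ∧ ∀ i, ∑ e, c e * a i e = 0 := by
  let T : (E → ℂ) →ₗ[ℂ] (I → ℂ) :=
    { toFun := fun c i => ∑ e, c e * a i e
      map_add' := by
        intro c d
        funext i
        simp [add_mul, Finset.sum_add_distrib]
      map_smul' := by
        intro s c
        funext i
        simp [mul_assoc, Finset.mul_sum] }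
  have h1 : LinearMap.ker T ≠ ⊥ := by
    refine LinearMap.ker_ne_bot_of_finrank_lt ?_
    rw [Module.finrank_fintype_fun_eq_card, Module.finrank_fintype_fun_eq_card]
    exact h
  obtain ⟨c, hc, hc0⟩ := (Submodule.ne_bot_iff _).1 h1
  refine ⟨c, hc0, fun i => ?_⟩
  exact congrFun (LinearMap.mem_ker.1 hc) i

private theorem S1_param (n n1 k : ℕ) (Q : ℝ) (hQ : 1 ≤ Q) : ∃ a L : ℕ, 0 < a ∧ 0 < L ∧
    k * (a * L) ^ n < (L + 1) ^ (n + 1) ∧
    (n : ℝ) * ((a * L : ℕ) : ℝ) ^ n * (4 * (1 / 2) ^ (a * L)) * Q ^ (n1 * L) < 1 := by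
  obtain ⟨a, ha⟩ := pow_unbounded_of_one_lt (Q ^ n1) (by norm_num : (1 : ℝ) < 2)
  have hQ1 : 1 ≤ Q ^ n1 := one_le_pow₀ hQ
  have ha0 : 0 < a := by
    rcases Nat.eq_zero_or_pos a with h | h
    · rw [h, pow_zero] at ha
      linarith
    · exact h
  set θ : ℝ := Q ^ n1 / 2 ^ a with hθ
  have hθ0 : 0 ≤ θ := by positivity
  have hθ1 : θ < 1 := by
    rw [hθ, div_lt_one (by positivity)]
    exact ha
  have h1 : Tendsto (fun L : ℕ => (4 * (n : ℝ) * (a : ℝ) ^ n) * ((L : ℝ) ^ n * θ ^ L)) atTop (𝓝 0) := by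
    have := (tendsto_pow_const_mul_const_pow_of_abs_lt_one n
      (show |θ| < 1 by rwa [abs_of_nonneg hθ0])).const_mul (4 * (n : ℝ) * (a : ℝ) ^ n)
    rwa [mul_zero] at this
  have h2 := (h1.eventually_lt_const (zero_lt_one (α := ℝ))).and (eventually_ge_atTop (k * a ^ n + 1))
  obtain ⟨L, hL1, hL2⟩ := h2.exists
  refine ⟨a, L, ha0, by omega, ?_, ?_⟩
  · have h3 : (a * L) ^ n = a ^ n * L ^ n := mul_pow _ _ _
    have h4 : L ^ n ≤ (L + 1) ^ n := Nat.pow_le_pow_left (Nat.le_succ L) n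
    have h5 : 0 < (L + 1) ^ n := pow_pos (Nat.succ_pos L) n
    calc k * (a * L) ^ n = (k * a ^ n) * L ^ n := by rw [h3, mul_assoc]
      _ ≤ (k * a ^ n) * (L + 1) ^ n := Nat.mul_le_mul_left _ h4
      _ < (L + 1) * (L + 1) ^ n := Nat.mul_lt_mul_of_pos_right (by omega) h5
      _ = (L + 1) ^ (n + 1) := by rw [pow_succ, mul_comm]
  · refine lt_of_eq_of_lt ?_ hL1
    have h6 : (Q ^ n1 / 2 ^ a) ^ L = Q ^ (n1 * L) * (1 / 2) ^ (a * L) := by
      rw [div_pow, ← pow_mul, ← pow_mul, one_div, inv_pow, div_eq_mul_inv]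
    rw [hθ, h6]
    push_cast
    rw [mul_pow]
    ring

/-- SIEGEL. `X` open in `ℂ^ι`, `f0` and `f k` (`card ι + 1` functions) holomorphic on `X`, `D` compact
in `X`; every `x ∈ X` is equivalent to a `y ∈ D` with a common factor `j` of absolute value at most
`ρ y / ρ x`, `ρ` positive and continuous. Then the `f k / f0` are algebraically dependent. -/
theorem siegel (hcard : Fintype.card κ = Fintype.card ι + 1) {X : Set (ι → ℂ)} (hX : IsOpen X)
    {f0 : (ι → ℂ) → ℂ} {f : κ → (ι → ℂ) → ℂ} (hf0 : DifferentiableOn ℂ f0 X)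
    (hf : ∀ k, DifferentiableOn ℂ (f k) X) {ρ : (ι → ℂ) → ℝ} (hρ : ContinuousOn ρ X)
    (hρ0 : ∀ x ∈ X, 0 < ρ x) {D : Set (ι → ℂ)} (hD : IsCompact D) (hDX : D ⊆ X)
    (hfd : ∀ x ∈ X, ∃ y ∈ D, ∃ j : ℂ, f0 x = j * f0 y ∧ (∀ k, f k x = j * f k y) ∧
      ‖j‖ * ρ x ≤ ρ y) :
    ∃ p : MvPolynomial κ ℂ, p ≠ 0 ∧ ∀ x ∈ X, f0 x ≠ 0 →
      MvPolynomial.eval (fun k => f k x / f0 x) p = 0 := by
  classical
  rcases Set.eq_empty_or_nonempty D with hDe | hDne
  · refine ⟨1, one_ne_zero, fun x hx _ => ?_⟩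
    obtain ⟨y, hy, _⟩ := hfd x hx
    rw [hDe] at hy
    exact absurd hy (Set.notMem_empty y)
  -- the cover
  have hrad : ∀ x : ι → ℂ, ∃ r : ℝ, 0 < r ∧ (x ∈ X → closedBall x (2 * r) ⊆ X) := by
    intro x
    by_cases hx : x ∈ X
    · obtain ⟨s, hs, hs1⟩ := Metric.isOpen_iff.1 hX x hx
      refine ⟨s / 4, by positivity, fun _ => (closedBall_subset_ball ?_).trans hs1⟩
      linarith
    · exact ⟨1, one_pos, fun h => absurd h hx⟩
  choose r hr0 hr using hrad
  obtain ⟨t, htD, ht⟩ := hD.elim_nhds_subcover (fun x => ball x (r x))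
    (fun x _ => ball_mem_nhds x (hr0 x))
  set K : Set (ι → ℂ) := ⋃ x ∈ t, closedBall x (2 * r x) with hK
  have hKc : IsCompact K := t.isCompact_biUnion fun x _ => isCompact_closedBall _ _
  have hKX : K ⊆ X := by
    intro y hy
    rw [hK, Set.mem_iUnion₂] at hy
    obtain ⟨x, hx, hy⟩ := hy
    exact hr x (hDX (htD x hx)) hy
  -- bounds of ρ
  obtain ⟨yM, hyM, hyMax⟩ := hD.exists_isMaxOn hDne (hρ.mono hDX)
  obtain ⟨m, hm0, hm⟩ : ∃ m : ℝ, 0 < m ∧ ∀ x ∈ K, m ≤ ρ x := by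
    rcases Set.eq_empty_or_nonempty K with hKe | hKne
    · exact ⟨1, one_pos, fun x hx => by rw [hKe] at hx; exact absurd hx (Set.notMem_empty x)⟩
    · obtain ⟨z, hz, hzm⟩ := hKc.exists_isMinOn hKne (hρ.mono hKX)
      exact ⟨ρ z, hρ0 z (hKX hz), fun x hx => hzm hx⟩
  set B : ℝ := ρ yM with hB
  have hB0 : 0 < B := hρ0 yM (hDX hyM)
  have hBD : ∀ y ∈ D, ρ y ≤ B := fun y hy => hyMax hy
  set Q : ℝ := max 1 (B / m) with hQ
  obtain ⟨a, L, ha0, hL0, hpar1, hpar2⟩ := S1_param (Fintype.card ι) (Fintype.card κ) t.card Q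
    (le_max_left _ _)
  set M : ℕ := a * L with hM
  have hM0 : 0 < M := Nat.mul_pos ha0 hL0
  set ω : ℂ := Complex.exp (2 * Real.pi * Complex.I / M) with hωd
  have hω : IsPrimitiveRoot ω M := Complex.isPrimitiveRoot_exp M hM0.ne'
  set N : ℕ := Fintype.card κ * L with hN
  -- the coefficients
  obtain ⟨c, hc0, hc⟩ := S1_lin (I := {x // x ∈ t} × (ι → Fin M)) (E := κ → Fin (L + 1)) (by
      rw [Fintype.card_prod, Fintype.card_coe, Fintype.card_fun, Fintype.card_fun,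
        Fintype.card_fin, Fintype.card_fin, hcard]
      exact hpar1)
    (fun i e => mo L f0 f e (fun l => (i.1 : ι → ℂ) l + r i.1 * ω ^ (i.2 l : ℕ)))
  set F : (ι → ℂ) → ℂ := fun x => ∑ e, c e * mo L f0 f e x with hF
  have hFd : DifferentiableOn ℂ F X := by
    refine DifferentiableOn.fun_sum fun e _ => ?_
    exact (mo_diff hf0 hf L e).const_mul (c e)
  have hFs : ∀ x ∈ X, ∃ y ∈ D, ∃ j : ℂ, F x = j ^ N * F y ∧ ‖j‖ * ρ x ≤ ρ y := by
    intro x hx
    obtain ⟨y, hy, j, h0, h1, h2⟩ := hfd x hx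
    refine ⟨y, hy, j, ?_, h2⟩
    rw [hF]
    simp only
    rw [Finset.mul_sum]
    refine Finset.sum_congr rfl fun e _ => ?_
    rw [mo_scale L f0 f e x y j h0 h1]
    ring
  -- the maximum on D
  have hGc : ContinuousOn (fun y => ‖F y‖ * ρ y ^ N) D :=
    ((hFd.continuousOn.norm).mul (hρ.pow N)).mono hDX
  obtain ⟨y0, hy0, hy0m⟩ := hD.exists_isMaxOn hDne hGc
  set S : ℝ := ‖F y0‖ * ρ y0 ^ N with hS
  have hS0 : 0 ≤ S := mul_nonneg (norm_nonneg _) (pow_nonneg (hρ0 _ (hDX hy0)).le _)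
  have hFX : ∀ x ∈ X, ‖F x‖ * ρ x ^ N ≤ S := by
    intro x hx
    obtain ⟨y, hy, j, h1, h2⟩ := hFs x hx
    have h3 : ‖F y‖ * ρ y ^ N ≤ S := hy0m hy
    refine le_trans ?_ h3
    rw [h1, norm_mul, norm_pow]
    calc ‖j‖ ^ N * ‖F y‖ * ρ x ^ N = ‖F y‖ * (‖j‖ * ρ x) ^ N := by rw [mul_pow]; ring
      _ ≤ ‖F y‖ * ρ y ^ N := by
          refine mul_le_mul_of_nonneg_left ?_ (norm_nonneg _)
          exact pow_le_pow_left₀ (mul_nonneg (norm_nonneg _) (hρ0 x hx).le) h2 N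
  have hFK : ∀ x ∈ K, ‖F x‖ ≤ S / m ^ N := by
    intro x hx
    rw [le_div_iff₀ (pow_pos hm0 N)]
    refine le_trans ?_ (hFX x (hKX hx))
    exact mul_le_mul_of_nonneg_left (pow_le_pow_left₀ hm0.le (hm x hx) N) (norm_nonneg _)
  -- Schwarz
  have hS1 : S ≤ (Fintype.card ι : ℝ) * (M : ℝ) ^ Fintype.card ι * (4 * (1 / 2) ^ M) *
      Q ^ N * S := by
    have h1 := ht hy0
    rw [Set.mem_iUnion₂] at h1
    obtain ⟨x, hx, hyx⟩ := h1
    have h2 := grid_bound (f := F) (x := x) (r := r x) (S := S / m ^ N) (hr0 x) hFd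
      (hr x (hDX (htD x hx))) (fun y hy => hFK y (by
        rw [hK, Set.mem_iUnion₂]
        exact ⟨x, hx, hy⟩)) hM0 hω (fun α => hc ⟨⟨x, hx⟩, α⟩) y0 (ball_subset_closedBall hyx)
    have h3 : ρ y0 ^ N ≤ B ^ N := pow_le_pow_left₀ (hρ0 _ (hDX hy0)).le (hBD y0 hy0) N
    have h4 : (B / m) ^ N ≤ Q ^ N := pow_le_pow_left₀ (by positivity) (le_max_right _ _) N
    set A : ℝ := (Fintype.card ι : ℝ) * (M : ℝ) ^ Fintype.card ι * (4 * (1 / 2) ^ M) with hA
    have hA0 : 0 ≤ A := by positivity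
    calc S = ‖F y0‖ * ρ y0 ^ N := hS
      _ ≤ (Fintype.card ι * M ^ Fintype.card ι * (4 * (1 / 2) ^ M * (S / m ^ N))) * B ^ N :=
          mul_le_mul h2 h3 (pow_nonneg (hρ0 _ (hDX hy0)).le _) ((norm_nonneg _).trans h2)
      _ = A * (B / m) ^ N * S := by
          rw [hA, div_pow]
          ring
      _ ≤ A * Q ^ N * S := by
          refine mul_le_mul_of_nonneg_right ?_ hS0
          exact mul_le_mul_of_nonneg_left h4 hA0
  have hSz : S = 0 := by
    by_contra hne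
    have hpos : 0 < S := lt_of_le_of_ne hS0 (Ne.symm hne)
    have h1 : (Fintype.card ι : ℝ) * (M : ℝ) ^ Fintype.card ι * (4 * (1 / 2) ^ M) * Q ^ N * S <
        1 * S := mul_lt_mul_of_pos_right hpar2 hpos
    linarith
  have hFz : ∀ x ∈ X, F x = 0 := by
    intro x hx
    have h1 := hFX x hx
    rw [hSz] at h1
    have h2 : ‖F x‖ * ρ x ^ N = 0 :=
      le_antisymm h1 (mul_nonneg (norm_nonneg _) (pow_nonneg (hρ0 x hx).le _))
    rcases mul_eq_zero.1 h2 with h3 | h3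
    · exact norm_eq_zero.1 h3
    · exact absurd h3 (pow_pos (hρ0 x hx) N).ne'
  -- the polynomial
  set em : (κ → Fin (L + 1)) → (κ →₀ ℕ) :=
    fun e => Finsupp.equivFunOnFinite.symm fun k => (e k : ℕ) with hem
  have hemi : Function.Injective em := by
    intro e e' h
    funext k
    have h1 := DFunLike.congr_fun h k
    simp only [hem, Finsupp.equivFunOnFinite_symm_apply_apply] at h1
    exact Fin.ext h1
  refine ⟨∑ e, MvPolynomial.monomial (em e) (c e), ?_, ?_⟩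
  · obtain ⟨e0, he0⟩ := Function.ne_iff.1 hc0
    intro h
    apply he0
    have h1 := congrArg (MvPolynomial.coeff (em e0)) h
    rw [MvPolynomial.coeff_sum, MvPolynomial.coeff_zero, Finset.sum_eq_single e0] at h1
    · rwa [MvPolynomial.coeff_monomial, if_pos rfl] at h1
    · intro e _ hne
      rw [MvPolynomial.coeff_monomial, if_neg fun h2 => hne (hemi h2)]
    · intro h2
      exact absurd (Finset.mem_univ _) h2
  · intro x hx hx0
    have h1 : f0 x ^ N * MvPolynomial.eval (fun k => f k x / f0 x)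
        (∑ e, MvPolynomial.monomial (em e) (c e)) = F x := by
      rw [map_sum, Finset.mul_sum]
      refine Finset.sum_congr rfl fun e _ => ?_
      rw [MvPolynomial.eval_monomial, Finsupp.prod_fintype _ _ (fun _ => pow_zero _)]
      simp only [hem, Finsupp.equivFunOnFinite_symm_apply_apply, div_pow, Finset.prod_div_distrib,
        Finset.prod_pow_eq_pow_sum]
      unfold mo
      have h2 : f0 x ^ N = f0 x ^ (Fintype.card κ * L - ∑ k, (e k : ℕ)) *
          f0 x ^ (∑ k, (e k : ℕ)) := by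
        rw [← pow_add, Nat.sub_add_cancel (S1_le L e)]
      rw [h2]
      have h3 : f0 x ^ (∑ k, (e k : ℕ)) ≠ 0 := pow_ne_zero _ hx0
      field_simp
    rw [hFz x hx] at h1
    exact (mul_eq_zero.1 h1).resolve_left (pow_ne_zero _ hx0)

end Pool.Agent.Helper11.SH
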