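import Pool.Agent.Helper11.SH.S1

/-!
PROJECT SH (MP_274814_nt), block S, file S2: descent of algebraic relations to the algebraic numbers.
-/

set_option autoImplicit false

namespace Pool.Agent.Helper11.SH

open Metric Finset Filter Topology

/-- Descent of the coefficients: linear relations with algebraic coefficients are kept. -/
theorem descent {κ : Type} (p : MvPolynomial κ ℂ) (hp : p ≠ 0) :
    ∃ p' : MvPolynomial κ ℂ, p' ≠ 0 ∧ (∀ m, IsAlgebraic ℚ (p'.coeff m)) ∧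
      p'.support ⊆ p.support ∧
      ∀ b : (κ →₀ ℕ) → ℂ, (∀ m, IsAlgebraic ℚ (b m)) →
        ∑ m ∈ p.support, p.coeff m * b m = 0 → ∑ m ∈ p.support, p'.coeff m * b m = 0 := by
  classical
  set A : IntermediateField ℚ ℂ := algebraicClosure ℚ ℂ with hA
  obtain ⟨m0, hm0⟩ := MvPolynomial.ne_zero_iff.1 hp
  obtain ⟨φ, hφ⟩ : ∃ φ : ℂ →ₗ[A] A, φ (p.coeff m0) ≠ 0 := by
    by_contra hcon
    push Not at hcon
    exact hm0 ((Module.forall_dual_apply_eq_zero_iff A _).1 hcon)
  have hφ0 : ∀ m ∉ p.support, φ (p.coeff m) = 0 := by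
    intro m hm
    rw [MvPolynomial.notMem_support_iff.1 hm, map_zero]
  set p' : MvPolynomial κ ℂ :=
    ∑ m ∈ p.support, MvPolynomial.monomial m ((φ (p.coeff m) : A) : ℂ) with hp'
  have hco : ∀ m, p'.coeff m = ((φ (p.coeff m) : A) : ℂ) := by
    intro m
    rw [hp', MvPolynomial.coeff_sum]
    simp only [MvPolynomial.coeff_monomial]
    rw [Finset.sum_ite_eq']
    split_ifs with h
    · rfl
    · rw [hφ0 m h]
      simp
  refine ⟨p', ?_, ?_, ?_, ?_⟩
  · refine MvPolynomial.ne_zero_iff.2 ⟨m0, ?_⟩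
    rw [hco]
    exact fun h => hφ (by exact_mod_cast h)
  · intro m
    rw [hco]
    exact (mem_algebraicClosure_iff.1 (φ (p.coeff m)).2)
  · intro m hm
    rw [MvPolynomial.mem_support_iff, hco] at hm
    by_contra h
    exact hm (by rw [hφ0 m h]; simp)
  · intro b hb h
    have h1 : ∀ m, ((φ (p.coeff m) : A) : ℂ) * b m =
        ((φ (p.coeff m * b m) : A) : ℂ) := by
      intro m
      have h2 : p.coeff m * b m = (⟨b m, mem_algebraicClosure_iff.2 (hb m)⟩ : A) • p.coeff m := by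
        rw [IntermediateField.smul_def, smul_eq_mul, mul_comm]
      rw [h2, map_smul, smul_eq_mul]
      push_cast
      rw [mul_comm]
    simp only [hco, h1]
    rw [← AddSubmonoidClass.coe_finset_sum, ← map_sum, h, map_zero]
    simp

/-- the value of a polynomial at a point with algebraic coordinates, descent -/
theorem descent_eval {κ : Type} (p : MvPolynomial κ ℂ) (hp : p ≠ 0) :
    ∃ p' : MvPolynomial κ ℂ, p' ≠ 0 ∧ (∀ m, IsAlgebraic ℚ (p'.coeff m)) ∧
      ∀ a : κ → ℂ, (∀ k, IsAlgebraic ℚ (a k)) → MvPolynomial.eval a p = 0 →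
        MvPolynomial.eval a p' = 0 := by
  classical
  obtain ⟨p', h1, h2, h3, h4⟩ := descent p hp
  refine ⟨p', h1, h2, fun a ha h => ?_⟩
  have h5 := h4 (fun m => m.prod fun k n => a k ^ n) (fun m => by
    rw [Finsupp.prod]
    exact mem_algebraicClosure_iff.1
      (prod_mem fun k _ => pow_mem (mem_algebraicClosure_iff.2 (ha k)) _)) (by
      rw [← h, MvPolynomial.eval_eq]
      rfl)
  rw [MvPolynomial.eval_eq]
  refine Eq.trans (Finset.sum_subset h3 fun m _ hm => ?_) h5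
  rw [MvPolynomial.notMem_support_iff.1 hm, zero_mul]

variable {ι κ : Type} [Fintype ι] [Fintype κ]

/-- SIEGEL with descent: if the ratios `f k / f0` have algebraic values on a dense set of points where
`f0 ≠ 0`, they satisfy a polynomial relation with algebraic coefficients. -/
theorem siegel_alg (hcard : Fintype.card κ = Fintype.card ι + 1) {X : Set (ι → ℂ)} (hX : IsOpen X)
    {f0 : (ι → ℂ) → ℂ} {f : κ → (ι → ℂ) → ℂ} (hf0 : DifferentiableOn ℂ f0 X)
    (hf : ∀ k, DifferentiableOn ℂ (f k) X) {ρ : (ι → ℂ) → ℝ} (hρ : ContinuousOn ρ X)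
    (hρ0 : ∀ x ∈ X, 0 < ρ x) {D : Set (ι → ℂ)} (hD : IsCompact D) (hDX : D ⊆ X)
    (hfd : ∀ x ∈ X, ∃ y ∈ D, ∃ j : ℂ, f0 x = j * f0 y ∧ (∀ k, f k x = j * f k y) ∧
      ‖j‖ * ρ x ≤ ρ y)
    (hO : X ⊆ closure {x | x ∈ X ∧ f0 x ≠ 0 ∧ ∀ k, IsAlgebraic ℚ (f k x / f0 x)}) :
    ∃ p : MvPolynomial κ ℂ, p ≠ 0 ∧ (∀ m, IsAlgebraic ℚ (p.coeff m)) ∧
      ∀ x ∈ X, f0 x ≠ 0 → MvPolynomial.eval (fun k => f k x / f0 x) p = 0 := by
  obtain ⟨p, hp, h⟩ := siegel hcard hX hf0 hf hρ hρ0 hD hDX hfd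
  obtain ⟨p', h1, h2, h3⟩ := descent_eval p hp
  refine ⟨p', h1, h2, fun x hx hx0 => ?_⟩
  have h4 : ContinuousAt (fun x => MvPolynomial.eval (fun k => f k x / f0 x) p') x := by
    have h5 : ContinuousAt (fun x => (fun k => f k x / f0 x : κ → ℂ)) x := by
      refine continuousAt_pi.2 fun k => ?_
      exact ((hf k).continuousOn.continuousAt (hX.mem_nhds hx)).div
        (hf0.continuousOn.continuousAt (hX.mem_nhds hx)) hx0
    exact (MvPolynomial.continuous_eval p').continuousAt.comp h5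
  have h6 := hO hx
  rw [mem_closure_iff_frequently] at h6
  by_contra hne
  have h7 := h4.eventually_ne hne
  obtain ⟨y, ⟨hy1, hy2, hy3⟩, hy4⟩ := (h6.and_eventually h7).exists
  exact hy4 (h3 _ hy3 (h y hy1 hy2))

end Pool.Agent.Helper11.SH
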