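import Pool.Agent.Helper11.SH.S2

/-!
PROJECT SH (MP_274814_nt), block S, file S3: the evaluation lemma.
-/

set_option autoImplicit false

namespace Pool.Agent.Helper11.SH

open Filter Topology Polynomial

/-- the algebraic numbers -/
noncomputable abbrev AA : IntermediateField ℚ ℂ := algebraicClosure ℚ ℂ

/-- evaluation of the inner variable -/
noncomputable abbrev ev (ε : ℂ) : AA[X] →+* ℂ := eval₂RingHom (algebraMap AA ℂ) ε

private theorem S3_cont (R : AA[X][X]) :
    Continuous fun p : ℂ × ℂ => eval₂ (ev p.1) p.2 R := by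
  simp only [eval₂_eq_sum_range]
  refine continuous_finset_sum _ fun i _ => ?_
  refine Continuous.mul ?_ (continuous_snd.pow i)
  exact (Polynomial.continuous_eval₂ (R.coeff i) (algebraMap AA ℂ)).comp continuous_fst

/-- If `R(ε, ψ(ε)) = 0` and `ψ(ε) → b` then `R(0, b) = 0`. -/
private theorem S3_lim {ψ : ℂ → ℂ} {b : ℂ} (hψ : Tendsto ψ (𝓝[≠] 0) (𝓝 b)) (R : AA[X][X])
    (hz : ∃ᶠ ε in 𝓝[≠] (0 : ℂ), eval₂ (ev ε) (ψ ε) R = 0) : eval₂ (ev 0) b R = 0 := by
  have h1 : Tendsto (fun ε : ℂ => (ε, ψ ε)) (𝓝[≠] 0) (𝓝 ((0 : ℂ), b)) :=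
    (tendsto_id.mono_right nhdsWithin_le_nhds).prodMk_nhds hψ
  have h2 := ((S3_cont R).tendsto ((0 : ℂ), b)).comp h1
  by_contra hne
  have h3 := h2.eventually_ne hne
  obtain ⟨ε, h4, h5⟩ := (hz.and_eventually h3).exists
  exact h5 h4

private theorem S3_base {b : ℂ} (R : AA[X][X]) (hR : R.map (constantCoeff : AA[X] →+* AA) ≠ 0)
    (h : eval₂ (ev 0) b R = 0) : IsAlgebraic ℚ b := by
  have h1 : IsAlgebraic AA b := by
    refine ⟨R.map (constantCoeff : AA[X] →+* AA), hR, ?_⟩
    rw [aeval_def, eval₂_map]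
    have h2 : (algebraMap AA ℂ).comp (constantCoeff : AA[X] →+* AA) = ev 0 := by
      refine Polynomial.ringHom_ext (fun a => ?_) ?_
      · simp
      · simp
    rw [h2]
    exact h
  have : Algebra.IsAlgebraic ℚ AA := algebraicClosure.isAlgebraic ℚ ℂ
  exact h1.restrictScalars ℚ

/-- One variable: if `R(ε, ψ(ε)) = 0` for small `ε` and `ψ(ε) → b`, then `b` is algebraic. -/
theorem S3_core {ψ : ℂ → ℂ} {b : ℂ} (hψ : Tendsto ψ (𝓝[≠] 0) (𝓝 b)) (R : AA[X][X]) (hR : R ≠ 0)
    (hz : ∃ᶠ ε in 𝓝[≠] (0 : ℂ), eval₂ (ev ε) (ψ ε) R = 0) : IsAlgebraic ℚ b := by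
  have key : ∀ (d : ℕ) (R : AA[X][X]), (∀ i, (R.coeff i).natDegree ≤ d) → R ≠ 0 →
      (∃ᶠ ε in 𝓝[≠] (0 : ℂ), eval₂ (ev ε) (ψ ε) R = 0) → IsAlgebraic ℚ b := by
    intro d
    induction d with
    | zero =>
      intro R hd hR hz
      refine S3_base R ?_ (S3_lim hψ R hz)
      intro h0
      apply hR
      ext1 i
      have h1 : (R.coeff i).coeff 0 = 0 := by
        have h2 := congrArg (fun p => p.coeff i) h0
        simp only [coeff_map, coeff_zero] at h2
        exact h2
      rw [eq_C_of_natDegree_le_zero (hd i), h1]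
      simp
    | succ d ih =>
      intro R hd hR hz
      by_cases h0 : R.map (constantCoeff : AA[X] →+* AA) = 0
      · have h1 : C X ∣ R := by
          rw [C_dvd_iff_dvd_coeff]
          intro i
          rw [X_dvd_iff]
          have h2 := congrArg (fun p => p.coeff i) h0
          simp only [coeff_map, coeff_zero] at h2
          exact h2
        obtain ⟨R', hR'⟩ := h1
        have hR0 : R' ≠ 0 := by
          rintro rfl
          rw [mul_zero] at hR'
          exact hR hR'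
        refine ih R' ?_ hR0 ?_
        · intro i
          have h2 := hd i
          rw [hR', coeff_C_mul] at h2
          by_cases h3 : R'.coeff i = 0
          · rw [h3, natDegree_zero]
            exact Nat.zero_le d
          · rw [natDegree_X_mul h3] at h2
            omega
        · refine (hz.and_eventually eventually_mem_nhdsWithin).mono ?_
          rintro ε ⟨h2, h3⟩
          rw [hR', eval₂_mul, eval₂_C] at h2
          refine (mul_eq_zero.1 h2).resolve_left ?_
          rw [coe_eval₂RingHom, eval₂_X]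
          exact h3
      · exact S3_base R h0 (S3_lim hψ R hz)
  refine key (R.support.sup fun i => (R.coeff i).natDegree) R ?_ hR hz
  intro i
  by_cases hi : i ∈ R.support
  · exact Finset.le_sup (f := fun i => (R.coeff i).natDegree) hi
  · rw [notMem_support_iff.1 hi, natDegree_zero]
    exact Nat.zero_le _

variable {ι : Type}

/-- lift of the coefficients -/
theorem lift_AA {σ : Type} (Q : MvPolynomial σ ℂ) (hQa : ∀ m, IsAlgebraic ℚ (Q.coeff m)) :
    ∃ QA : MvPolynomial σ AA, MvPolynomial.map (algebraMap AA ℂ) QA = Q := by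
  refine ⟨∑ m ∈ Q.support, MvPolynomial.monomial m ⟨Q.coeff m, mem_algebraicClosure_iff.2 (hQa m)⟩, ?_⟩
  rw [map_sum]
  simp only [MvPolynomial.map_monomial]
  exact (MvPolynomial.support_sum_monomial_coeff Q)

/-- restriction to a line -/
noncomputable def ln (c : ι → AA) : MvPolynomial (Option ι) AA →+* AA[X][X] :=
  MvPolynomial.eval₂Hom (C.comp C) (fun o => o.elim X fun i => C (C (c i) * X))

private theorem ln_eval (c : ι → AA) (QA : MvPolynomial (Option ι) AA) (ε y : ℂ) :
    eval₂ (ev ε) y (ln c QA) = MvPolynomial.eval (fun o => o.elim y fun i => ε * (c i : ℂ))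
      (MvPolynomial.map (algebraMap AA ℂ) QA) := by
  have h1 : (eval₂RingHom (ev ε) y).comp (ln c) =
      (MvPolynomial.eval (fun o => o.elim y fun i => ε * (c i : ℂ))).comp
        (MvPolynomial.map (algebraMap AA ℂ)) := by
    refine MvPolynomial.ringHom_ext (fun a => ?_) (fun o => ?_)
    · simp only [ln, RingHom.comp_apply, MvPolynomial.coe_eval₂Hom, MvPolynomial.eval₂_C,
        coe_eval₂RingHom, eval₂_C, MvPolynomial.map_C, MvPolynomial.eval_C]
    · rcases o with _ | i
      · simp only [ln, RingHom.comp_apply, MvPolynomial.coe_eval₂Hom, MvPolynomial.eval₂_X,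
          coe_eval₂RingHom, eval₂_X, MvPolynomial.map_X, MvPolynomial.eval_X, Option.elim_none]
      · simp only [ln, RingHom.comp_apply, MvPolynomial.coe_eval₂Hom, MvPolynomial.eval₂_X,
          coe_eval₂RingHom, eval₂_X, MvPolynomial.map_X, MvPolynomial.eval_X, Option.elim_some,
          eval₂_C, eval₂_mul]
        rw [mul_comm]
        rfl
  exact congrArg (fun F : MvPolynomial (Option ι) AA →+* ℂ => F QA) h1

/-- a good direction: `Q(ε c, Y) ≠ 0` -/
def Good (c : ι → AA) (QA : MvPolynomial (Option ι) AA) : Prop := ln c QA ≠ 0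

private theorem good_of_eval (c : ι → AA) (QA : MvPolynomial (Option ι) AA) (y : AA)
    (h : MvPolynomial.eval (fun o => o.elim y fun i => c i) QA ≠ 0) : Good c QA := by
  intro h0
  apply h
  have h1 := ln_eval c QA 1 (y : ℂ)
  rw [h0, eval₂_zero] at h1
  have h2 : MvPolynomial.eval (fun o => o.elim (y : ℂ) fun i => 1 * (c i : ℂ))
      (MvPolynomial.map (algebraMap AA ℂ) QA) =
      algebraMap AA ℂ (MvPolynomial.eval (fun o => o.elim y fun i => c i) QA) := by
    rw [MvPolynomial.eval_map]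
    have h3 := MvPolynomial.eval₂_comp_left (algebraMap AA ℂ) (RingHom.id AA)
      (fun o : Option ι => o.elim y fun i => c i) QA
    rw [RingHom.comp_id] at h3
    refine Eq.trans ?_ h3.symm
    congr 1
    funext o
    rcases o with _ | i
    · rfl
    · exact one_mul _
  rw [h2] at h1
  exact ((map_eq_zero (algebraMap AA ℂ)).1 h1.symm)

/-- good directions exist -/
private theorem exists_good (QA : MvPolynomial (Option ι) AA) (hQ : QA ≠ 0) :
    ∃ (c : ι → AA) (y : AA), MvPolynomial.eval (fun o => o.elim y fun i => c i) QA ≠ 0 := by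
  by_contra hcon
  push Not at hcon
  apply hQ
  refine MvPolynomial.funext fun a => ?_
  rw [map_zero, ← hcon (fun i => a (some i)) (a none)]
  congr 2
  funext o
  rcases o with _ | i <;> rfl

variable [Fintype ι]

private theorem S3_line (g : (ι → ℂ) → (ι → ℂ)) (g' : (ι → ℂ) ≃L[ℂ] (ι → ℂ)) (x1 : ι → ℂ)
    (hg : HasStrictFDerivAt g (g' : (ι → ℂ) →L[ℂ] (ι → ℂ)) x1) (h0 : g x1 = 0)
    (φ : (ι → ℂ) → ℂ) (QA : MvPolynomial (Option ι) AA)
    (hz : ∀ᶠ x in 𝓝 x1, MvPolynomial.eval (fun o : Option ι => o.elim (φ x) (g x))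
      (MvPolynomial.map (algebraMap AA ℂ) QA) = 0) (c : ι → AA) :
    ∃ x : ℂ → (ι → ℂ), x 0 = x1 ∧ HasDerivAt x (g'.symm fun i => (c i : ℂ)) 0 ∧
      ∀ᶠ ε in 𝓝 (0 : ℂ), eval₂ (ev ε) (φ (x ε)) (ln c QA) = 0 := by
  set v : ι → ℂ := fun i => (c i : ℂ) with hv
  have hl : HasDerivAt (fun ε : ℂ => ε • v) v 0 := by
    have := (hasDerivAt_id (0 : ℂ)).smul_const v
    rwa [one_smul] at this
  have hinv := hg.to_localInverse
  rw [h0] at hinv
  refine ⟨fun ε => hg.localInverse g g' x1 (ε • v), ?_, ?_, ?_⟩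
  · simp only [zero_smul]
    have := hg.localInverse_apply_image
    rwa [h0] at this
  · have h1 : HasFDerivAt (hg.localInverse g g' x1) (g'.symm : (ι → ℂ) →L[ℂ] (ι → ℂ))
        ((0 : ℂ) • v) := by
      rw [zero_smul]
      exact hinv.hasFDerivAt
    exact h1.comp_hasDerivAt (0 : ℂ) hl
  · have ht : Tendsto (fun ε : ℂ => ε • v) (𝓝 0) (𝓝 (0 : ι → ℂ)) := by
      have := hl.continuousAt.tendsto
      rwa [zero_smul] at this
    have h1 := hg.eventually_right_inverse
    rw [h0] at h1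
    have h2 : Tendsto (hg.localInverse g g' x1) (𝓝 0) (𝓝 x1) := by
      have := hg.localInverse_tendsto
      rwa [h0] at this
    have h3 := ht.eventually h1
    have h4 := (h2.comp ht).eventually hz
    filter_upwards [h3, h4] with ε h5 h6
    rw [ln_eval]
    simp only [Function.comp_apply] at h6
    rw [h5] at h6
    exact h6

/-- THE EVALUATION LEMMA. `g` local coordinates at `x1`, `g x1 = 0`; if `φ`, `g` satisfy a relation with
algebraic coefficients, the value of `φ` at `x1` is algebraic. -/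
theorem eval_alg (g : (ι → ℂ) → (ι → ℂ)) (g' : (ι → ℂ) ≃L[ℂ] (ι → ℂ)) (x1 : ι → ℂ)
    (hg : HasStrictFDerivAt g (g' : (ι → ℂ) →L[ℂ] (ι → ℂ)) x1) (h0 : g x1 = 0)
    (φ : (ι → ℂ) → ℂ) (hφ : ContinuousAt φ x1) (Q : MvPolynomial (Option ι) ℂ) (hQ : Q ≠ 0)
    (hQa : ∀ m, IsAlgebraic ℚ (Q.coeff m))
    (hz : ∀ᶠ x in 𝓝 x1, MvPolynomial.eval (fun o : Option ι => o.elim (φ x) (g x)) Q = 0) :
    IsAlgebraic ℚ (φ x1) := by
  obtain ⟨QA, rfl⟩ := lift_AA Q hQa
  have hQA : QA ≠ 0 := by
    rintro rfl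
    exact hQ (map_zero _)
  obtain ⟨c, y, hc⟩ := exists_good QA hQA
  obtain ⟨x, hx0, hx, hxz⟩ := S3_line g g' x1 hg h0 φ QA hz c
  have h1 : Tendsto (fun ε => φ (x ε)) (𝓝[≠] 0) (𝓝 (φ x1)) := by
    have h2 : ContinuousAt (fun ε => φ (x ε)) 0 := by
      refine ContinuousAt.comp ?_ hx.continuousAt
      rwa [hx0]
    have h3 := h2.tendsto
    rw [hx0] at h3
    exact h3.mono_left nhdsWithin_le_nhds
  exact S3_core h1 (ln c QA) (good_of_eval c QA y hc)
    ((hxz.filter_mono nhdsWithin_le_nhds).frequently)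

private theorem S3_deriv_good (g : (ι → ℂ) → (ι → ℂ)) (g' : (ι → ℂ) ≃L[ℂ] (ι → ℂ)) (x1 : ι → ℂ)
    (hg : HasStrictFDerivAt g (g' : (ι → ℂ) →L[ℂ] (ι → ℂ)) x1) (h0 : g x1 = 0)
    (φ : (ι → ℂ) → ℂ) (hφ : DifferentiableAt ℂ φ x1) (QA : MvPolynomial (Option ι) AA)
    (hz : ∀ᶠ x in 𝓝 x1, MvPolynomial.eval (fun o : Option ι => o.elim (φ x) (g x))
      (MvPolynomial.map (algebraMap AA ℂ) QA) = 0) (ha : IsAlgebraic ℚ (φ x1)) (c : ι → AA)
    (hc : Good c QA) : IsAlgebraic ℚ (fderiv ℂ φ x1 (g'.symm fun i => (c i : ℂ))) := by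
  obtain ⟨x, hx0, hx, hxz⟩ := S3_line g g' x1 hg h0 φ QA hz c
  have hd : HasDerivAt (fun ε => φ (x ε)) (fderiv ℂ φ x1 (g'.symm fun i => (c i : ℂ))) 0 := by
    have h1 : HasFDerivAt φ (fderiv ℂ φ x1) (x 0) := by
      rw [hx0]
      exact hφ.hasFDerivAt
    exact h1.comp_hasDerivAt (0 : ℂ) hx
  set a : AA := ⟨φ x1, mem_algebraicClosure_iff.2 ha⟩ with haa
  set q : AA[X][X] := C (C a) + C X * X with hq
  have hcomp : (ln c QA).comp q ≠ 0 := by
    intro h1
    rw [comp_eq_zero_iff] at h1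
    rcases h1 with h1 | ⟨_, h1⟩
    · exact hc h1
    · have h2 := congrArg (fun p => p.coeff 1) h1
      simp only [hq, coeff_add, coeff_C_mul, coeff_X_one, mul_one] at h2
      rw [coeff_C_ne_zero one_ne_zero, coeff_C_ne_zero one_ne_zero, zero_add] at h2
      exact X_ne_zero h2
  have ht := hd.tendsto_slope
  refine S3_core ht _ hcomp ?_
  have h3 : ∀ᶠ ε in 𝓝[≠] (0 : ℂ), eval₂ (ev ε) (slope (fun ε => φ (x ε)) 0 ε)
      ((ln c QA).comp q) = 0 := by
    filter_upwards [hxz.filter_mono nhdsWithin_le_nhds, self_mem_nhdsWithin] with ε h4 h5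
    rw [eval₂_comp]
    have h6 : eval₂ (ev ε) (slope (fun ε => φ (x ε)) 0 ε) q = φ (x ε) := by
      rw [hq, eval₂_add, eval₂_mul, eval₂_C, eval₂_C, eval₂_X, coe_eval₂RingHom, eval₂_C, eval₂_X,
        slope_def_field, hx0]
      have h7 : ε ≠ 0 := h5
      have h8 : (algebraMap AA ℂ) a = φ x1 := rfl
      rw [h8, sub_zero]
      field_simp
      ring
    rw [h6]
    exact h4
  exact h3.frequently

/-- The derivatives of `φ` with respect to the coordinates `g` are algebraic at `x1`. -/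
theorem eval_alg_deriv (g : (ι → ℂ) → (ι → ℂ)) (g' : (ι → ℂ) ≃L[ℂ] (ι → ℂ)) (x1 : ι → ℂ)
    (hg : HasStrictFDerivAt g (g' : (ι → ℂ) →L[ℂ] (ι → ℂ)) x1) (h0 : g x1 = 0)
    (φ : (ι → ℂ) → ℂ) (hφ : DifferentiableAt ℂ φ x1) (Q : MvPolynomial (Option ι) ℂ) (hQ : Q ≠ 0)
    (hQa : ∀ m, IsAlgebraic ℚ (Q.coeff m))
    (hz : ∀ᶠ x in 𝓝 x1, MvPolynomial.eval (fun o : Option ι => o.elim (φ x) (g x)) Q = 0)
    (c : ι → ℂ) (hc : ∀ i, IsAlgebraic ℚ (c i)) :
    IsAlgebraic ℚ (fderiv ℂ φ x1 (g'.symm c)) := by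
  have ha := eval_alg g g' x1 hg h0 φ hφ.continuousAt Q hQ hQa hz
  obtain ⟨QA, rfl⟩ := lift_AA Q hQa
  have hQA : QA ≠ 0 := by
    rintro rfl
    exact hQ (map_zero _)
  obtain ⟨d, y, hd⟩ := exists_good QA hQA
  set cA : ι → AA := fun i => ⟨c i, mem_algebraicClosure_iff.2 (hc i)⟩ with hcA
  -- a good direction `d + s c`, `s ≠ 0`
  obtain ⟨s, hs0, hs⟩ : ∃ s : AA, s ≠ 0 ∧
      MvPolynomial.eval (fun o : Option ι => o.elim y fun i => d i + s * cA i) QA ≠ 0 := by
    set P : AA[X] := MvPolynomial.eval₂ (C : AA →+* AA[X])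
      (fun o : Option ι => o.elim (C y) fun i => C (d i) + X * C (cA i)) QA with hP
    have hPe : ∀ s : AA, P.eval s =
        MvPolynomial.eval (fun o : Option ι => o.elim y fun i => d i + s * cA i) QA := by
      intro s
      have h1 := MvPolynomial.eval₂_comp_left (evalRingHom s) (C : AA →+* AA[X])
        (fun o : Option ι => o.elim (C y) fun i => C (d i) + X * C (cA i)) QA
      rw [coe_evalRingHom, ← hP] at h1
      rw [h1]
      have h2 : (evalRingHom s).comp (C : AA →+* AA[X]) = RingHom.id AA := by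
        refine RingHom.ext fun a => ?_
        simp
      rw [h2]
      refine congrArg (fun f => MvPolynomial.eval₂ (RingHom.id AA) f QA) ?_
      funext o
      rcases o with _ | i
      · simp only [Option.elim_none, Function.comp_apply, coe_evalRingHom, eval_C]
      · simp only [Option.elim_some, Function.comp_apply, coe_evalRingHom, eval_C, eval_add, eval_mul,
          eval_X]
    have hP0 : P ≠ 0 := by
      intro h1
      apply hd
      have h2 := hPe 0
      rw [h1, eval_zero] at h2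
      refine Eq.trans ?_ h2.symm
      refine congrArg (fun f => MvPolynomial.eval f QA) ?_
      funext o
      rcases o with _ | i
      · rfl
      · simp only [Option.elim_some, zero_mul, add_zero]
    have hX : P * X ≠ 0 := mul_ne_zero hP0 X_ne_zero
    obtain ⟨s, hs⟩ : ∃ s : AA, (P * X).eval s ≠ 0 := by
      by_contra hcon
      push Not at hcon
      exact hX (Polynomial.funext fun s => by rw [hcon s, eval_zero])
    rw [eval_mul, eval_X] at hs
    refine ⟨s, right_ne_zero_of_mul hs, ?_⟩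
    rw [← hPe]
    exact left_ne_zero_of_mul hs
  have h1 := S3_deriv_good g g' x1 hg h0 φ hφ QA hz ha d (good_of_eval d QA y hd)
  have h2 := S3_deriv_good g g' x1 hg h0 φ hφ QA hz ha (fun i => d i + s * cA i)
    (good_of_eval _ QA y hs)
  have h3 : (fun i => ((d i + s * cA i : AA) : ℂ)) = (fun i => (d i : ℂ)) + (s : ℂ) • c := by
    funext i
    simp [hcA]
  rw [h3, map_add, map_add, map_smul, map_smul, smul_eq_mul] at h2
  have h4 := h2.sub h1
  rw [add_sub_cancel_left] at h4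
  have hsA : IsAlgebraic ℚ (s : ℂ) := mem_algebraicClosure_iff.1 s.2
  have hs0' : (s : ℂ) ≠ 0 := fun h => hs0 (by exact_mod_cast h)
  have h5 := hsA.inv.mul h4
  rwa [← mul_assoc, inv_mul_cancel₀ hs0', one_mul] at h5

end Pool.Agent.Helper11.SH
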